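import Mathlib
import Pool.Agent.Lib.helper23.BLF

set_option autoImplicit false

namespace Pool.Agent.Results.MP_be51b2_an.Main

open Pool.Agent.Lib.helper23.BL

/-- The universal property of the free Banach lattice over some set. -/
def IsFree (P : Type) [BanachLattice P] : Prop :=
  ∃ (A : Type) (δ : A → P), (∀ a, ‖δ a‖ = 1) ∧
    ∀ (X : Type) [BanachLattice X] (f : A → X), BddAbove (Set.range fun a => ‖f a‖) →
      ∃ T : P →L[ℝ] X, IsHom T ∧ (∀ a, T (δ a) = f a) ∧ ‖T‖ = ⨆ a, ‖f a‖ ∧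
        ∀ T' : P →L[ℝ] X, IsHom T' → (∀ a, T' (δ a) = f a) → T' = T

variable {P : Type} [BanachLattice P]

/-- Two functionals as one map into the sequence space. -/
noncomputable def pair (φ ψ : P →L[ℝ] ℝ) : P →L[ℝ] EllOne :=
  φ.smulRight (ee 0) + ψ.smulRight (ee 1)

theorem co_pair (φ ψ : P →L[ℝ] ℝ) (x : P) (n : ℕ) :
    co n (pair φ ψ x) = if n = 0 then φ x else if n = 1 then ψ x else 0 := by
  change co n (φ x • ee 0 + ψ x • ee 1) = _
  rw [map_add, map_smul, map_smul, co_ee, co_ee]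
  rcases n with _ | _ | n <;> simp

theorem pair_hom {φ ψ : P →L[ℝ] ℝ} (h : IsHom φ) (k : IsHom ψ) : IsHom (pair φ ψ) := fun x =>
  ext_co fun n => by
    rw [co_hom, co_pair, co_pair, h, k]
    split_ifs <;> simp

theorem norm_pair (φ ψ : P →L[ℝ] ℝ) (x : P) : ‖pair φ ψ x‖ = |φ x| + |ψ x| := by
  refine (hasSum_co _).unique ?_
  have := hasSum_sum_of_ne_finset_zero (f := fun n => |co n (pair φ ψ x)|) (s := {0, 1})
    (L := .unconditional ℕ) fun n hn => by
      simp only [Finset.mem_insert, Finset.mem_singleton, not_or] at hn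
      simp [co_pair, hn.1, hn.2]
  simpa [co_pair] using this

theorem result : ∃ (P : Type) (_ : BanachLattice P),
    Projective P ∧ (¬ ∃ e : P, IsTopUnit e) ∧ ¬ IsFree P := by
  classical
  obtain ⟨P, _, δ, h⟩ := exists_univ (ι := ℝ)
    (Set.range fun i => (.sup (.smul (-1) (.var i)) .zero, 0)) (by
      rintro _ ⟨i, rfl⟩
      exact le_rfl)
  have d0 : ∀ i, 0 ≤ δ i := fun i => by
    have := norm_le_zero_iff.1 (h.rel _ ⟨i, rfl⟩)
    simpa using this
  have ext : ∀ (Y : Type) [BanachLattice Y] (y : ℝ → Y) (M : ℝ), (∀ i, 0 ≤ y i) →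
      (∀ i, ‖y i‖ ≤ M) → ∃ T : P →L[ℝ] Y, IsHom T ∧ ‖T‖ ≤ M ∧ ∀ i, T (δ i) = y i :=
    fun Y _ y M h0 h1 => h.ext Y y M ((norm_nonneg _).trans (h1 0)) h1 (by
      rintro _ ⟨i, rfl⟩
      simp [h0 i])
  choose ev e1 _ e3 using fun i : ℝ => ext ℝ (fun j => if j = i then 1 else 0) 1
    (fun j => by split_ifs <;> simp) fun j => by split_ifs <;> simp
  refine ⟨P, inferInstance, fun X _ J T hT ε hε => ?_, fun ⟨e, he⟩ => ?_, fun ⟨A, d, _, hd⟩ => ?_⟩
  · choose x x0 x1 x2 using fun i => exists_lift_pos (hT.nonneg (d0 i)) (c := ‖T‖)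
      ((T.le_opNorm _).trans (mul_le_of_le_one_right (norm_nonneg _) (h.gen i))) hε
    obtain ⟨S, s1, s2, s3⟩ := ext X x _ x0 x2
    refine ⟨S, s1, fun y => DFunLike.congr_fun (hom_ext h.dense ((mk_hom J).comp s1) hT
      fun i => ?_) y, s2⟩
    rw [ContinuousLinearMap.comp_apply, s3, x1]
  · obtain ⟨u, u1, u2⟩ := mem_closure_iff_seq_limit.1 (h.dense e)
    choose t ht using u1
    obtain ⟨i, hi⟩ : ∃ i, i ∉ ⋃ n, (t n).vars := by
      by_contra hc
      push Not at hc
      exact Set.not_countable_univ ((Set.countable_iUnion fun n =>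
        (t n).vars_finite.countable).mono fun i _ => hc i)
    have h1 : e ∈ (e1 i).ker.sub := (e1 i).ker.closed.mem_of_tendsto u2
      (Filter.Eventually.of_forall fun n => by
        change ev i (u n) = 0
        rw [← ht, (e1 i).eval, Tm.eval_congr (y := fun _ => (0 : ℝ →L[ℝ] ℝ) 0) fun j hj => by
          rw [e3, if_neg fun (k : j = i) => hi (Set.mem_iUnion.2 ⟨n, k ▸ hj⟩)]
          rfl, ← isHom_zero.eval (fun _ => (0 : ℝ))]
        rfl)
    have h2 : δ i ∈ (e1 i).ker.sub := he.2 _ h1 ▸ Submodule.mem_top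
    have h3 : ev i (δ i) = 0 := h2
    simp [e3] at h3
  · have bd : ∀ {X : Type} [BanachLattice X] (T : P →L[ℝ] X),
        BddAbove (Set.range fun a => ‖T (d a)‖) := fun T => ⟨‖T‖, by
      rintro _ ⟨a, rfl⟩
      simpa [*] using T.le_opNorm (d a)⟩
    have nm : ∀ T : P →L[ℝ] EllOne, IsHom T → ‖T‖ = ⨆ a, ‖T (d a)‖ := fun T hT => by
      obtain ⟨S, -, -, s3, s4⟩ := hd _ _ (bd T)
      rw [← s3, s4 T hT fun _ => rfl]
    obtain ⟨φ, p1, p2, -⟩ := hd ℝ (fun a => -ev 0 (d a)) (by simpa using bd (ev 0))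
    have key : ∀ (χ : P →L[ℝ] ℝ) (M : ℝ) (i : ℝ), IsHom χ → ‖χ‖ ≤ M →
        ‖pair χ (M • ev i)‖ = χ (δ i) + M := fun χ M i hχ hM => by
      have m0 : 0 ≤ M := (norm_nonneg _).trans hM
      have hp := pair_hom hχ ((e1 i).smul m0)
      have k : ‖pair χ (M • ev i) (δ i)‖ = χ (δ i) + M := by
        simp [norm_pair, e3, abs_of_nonneg m0, abs_of_nonneg (hχ.nonneg (d0 i))]
      refine le_antisymm ?_ (k ▸ ((pair χ (M • ev i)).le_opNorm _).trans
        (mul_le_of_le_one_right (norm_nonneg _) (h.gen i)))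
      obtain ⟨S, s1, s2, s3⟩ := ext EllOne (fun j => pair χ (M • ev i) (δ j)) (χ (δ i) + M)
        (fun j => hp.nonneg (d0 j)) fun j => by
          by_cases hj : j = i
          · rw [hj, k]
          · have := (χ.le_opNorm _).trans (mul_le_of_le_one_right (norm_nonneg _) (h.gen j))
            have := hχ.nonneg (d0 i)
            simp only [norm_pair, ContinuousLinearMap.smul_apply, e3, hj, if_false, smul_zero,
              abs_zero, add_zero, ← Real.norm_eq_abs]
            linarith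
      rwa [← hom_ext h.dense s1 hp s3]
    have e : φ = ev 0 := hom_ext h.dense p1 (e1 0) fun i => by
      have m0 : 0 ≤ ‖φ‖ + ‖ev 0‖ := by positivity
      have k1 := key φ _ i p1 (le_add_of_nonneg_right (norm_nonneg (ev 0)))
      have k2 := key (ev 0) _ i (e1 0) (le_add_of_nonneg_left (norm_nonneg φ))
      rw [nm _ (pair_hom p1 ((e1 i).smul m0))] at k1
      rw [nm _ (pair_hom (e1 0) ((e1 i).smul m0))] at k2
      simp only [norm_pair, p2, abs_neg] at k1 k2
      linarith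
    obtain ⟨S, -, -, -, s4⟩ := hd ℝ (fun _ => 0) (by simpa using bd (0 : P →L[ℝ] ℝ))
    have z : ev 0 = 0 := (s4 _ (e1 0) fun a => by
      have := p2 a
      rw [e] at this
      linarith).trans (s4 0 isHom_zero fun _ => rfl).symm
    have := e3 0 0
    simp [z] at this

end Pool.Agent.Results.MP_be51b2_an.Main
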